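import Pool.Agent.MWGX.StmtsB

/-!
# MWGX, row PEG: the doubling pentagon with a gap
-/

set_option autoImplicit false

namespace Pool.Agent.MWGX.H36

open Pool.Agent.Helper14_MV Pool.Agent.Helper2_MV
open Pool.Agent.MWK (pre)
open Pool.Agent.MWF (gaml)
open Pool.Agent.MWGN (nn Nm WC WT Tau Ns nl sg)
open Pool.Agent.MWGQ (pw Gn E0 A0 P0 bd kr krl Rs)
open Pool.Agent.MWGR (X It Kaba F1 Dm Ec Es Ea Al0 Rh FE)

theorem peg (dgr : DgrStmt) (hV : VcgStmt) (h1 : Sa1Stmt) (h2 : Sa2Stmt) (hC : ClgStmt) :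
    PegStmt := by
  intro n β hM hG hI hD hE m τ hT
  by_contra hK
  have hn := hG.pos
  obtain ⟨δ, hδ⟩ := dgr n β hn hI
  have hδ1 : δ ≠ 1 := by
    intro h
    exact hD ((hδ.iff 1).2 (by rw [h]))
  have hδn : δ ≤ n := Nat.le_of_dvd (by omega) hδ.dv
  have hδ0 := hδ.pos
  have hn2 : 2 ≤ n := by omega
  have hv := fun u v h => hV n β δ hG hI hδ hE τ m hT hK u v h
  have bσ : β ≤ gaml (KB n δ τ m) := MWF.le_gaml fun u v h hu => (hv u v h).1 hu
  have bτ : β ≤ gaml (KC n δ τ m) := MWF.le_gaml fun u v h hu => (hv u v h).2 hu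
  have hc := fun f p q => hC n δ hn2 hδ.dv τ m hT f p q
  have s1 : RR (gaml (KB n δ τ m)) (w0 n τ m true true) (w0 n τ m true false) :=
    MWF.RR_gaml fun f p q => (hc f p q).2.1 true
  have s2 : RR (gaml (KB n δ τ m)) (w0 n τ m false true) (w0 n τ m false false) :=
    MWF.RR_gaml fun f p q => (hc f p q).2.1 false
  have t1 : RR (gaml (KC n δ τ m)) (w0 n τ m true true) (w0 n τ m false true) :=
    MWF.RR_gaml fun f p q => (hc f p q).1 true
  have t2 : RR (gaml (KC n δ τ m)) (w0 n τ m true false) (w0 n τ m false false) :=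
    MWF.RR_gaml fun f p q => (hc f p q).1 false
  have r1 : RR (gaml (fun w => KB n δ τ m w ∧ KC n δ τ m w)) (w0 n τ m true false)
      (w0 n τ m false false) :=
    MWF.RR_gaml fun f p q => (hc f p q).2.2
  have hs : RR (FIC.sup (FIC.inf (gaml (fun w => KB n δ τ m w ∧ KC n δ τ m w))
      (gaml (KC n δ τ m))) (gaml (KB n δ τ m))) (w0 n τ m true true) (w0 n τ m false true) := by
    have a1 := FIC.le_sup_right (FIC.inf (gaml (fun w => KB n δ τ m w ∧ KC n δ τ m w))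
      (gaml (KC n δ τ m))) (gaml (KB n δ τ m)) _ _ s1
    have a2 := FIC.le_sup_left (FIC.inf (gaml (fun w => KB n δ τ m w ∧ KC n δ τ m w))
      (gaml (KC n δ τ m))) (gaml (KB n δ τ m)) _ _ ⟨r1, t2⟩
    have a3 := FIC.le_sup_right (FIC.inf (gaml (fun w => KB n δ τ m w ∧ KC n δ τ m w))
      (gaml (KC n δ τ m))) (gaml (KB n δ τ m)) _ _ s2
    exact FIC.trans _ a1 (FIC.trans _ a2 (FIC.symm _ a3))
  have hw : KB n δ τ m (w0 n τ m true true) ∧ KC n δ τ m (w0 n τ m true true) := by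
    obtain ⟨c1, c2, c3, c4, c5, c6⟩ := h1 n δ hn2 hδ.dv τ m hT
    obtain ⟨d1, d2, d3, d4, d5, d6⟩ := h2 n δ hn2 hδ.dv τ m hT
    exact ⟨⟨⟨c1, c2, c3, c4, c5, d1, d2, d3, d4, d5⟩, c6⟩,
      ⟨⟨c1, c2, c3, c4, c5, d1, d2, d3, d4, d5⟩, d6⟩⟩
  have h3 := pen hM (KB n δ τ m) (KC n δ τ m) bσ bτ hs t1 hw
  have h4 := h3.1.2
  have h5 : nn (w0 n τ m false true) 0 1 = 0 := by
    unfold nn w0 gR
    rw [if_neg (by simp), pw_one, pw_one]
    simp only [List.append_assoc, List.cons_append, List.nil_append]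
    rw [Pool.Agent.MWK.pre_split (by simp [List.mem_replicate])]
    simp [List.count_replicate]
  omega

end Pool.Agent.MWGX.H36
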